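import Pool.Agent.Helper75.BY.Dens

/-!
# The analytic order of the Tate-Shafarevich group of the quadratic twists of `X_0(14)`

`E_D : Y² = X (X² + 13 D X + 128 D²)` is the quadratic twist by `D` of the modular curve `X_0(14)`, an
elliptic curve without complex multiplication; `WM D` is a global minimal equation for `D ≡ 1 mod 4`.
Let `D > 1` run over the squarefree numbers which are `1` modulo `8`, nonzero squares modulo `7` and not
divisible by `3`. Let `s` and `i` be the numbers of the prime factors of `D` modulo which `-7` is and is
not a square (`i` is even), `Ω` the real period and `L` the Hasse-Weil `L`-function of `E_D`, and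
`W(D) = ∑ χ₃(v₀ v₁ v₂)` the sum over the vectors `v` of `ℤ³` with `|v|² = 3 D` and
`v × (1, 2, 3) ≡ β (1, 2, 3) mod 7`, where `β² = -3 D` modulo `7` (the other root `-β` gives `- W(D)`).

The theorem says, for all these `D` and without any hypothesis:

* the equation is globally minimal, `#E_D(ℚ)_tors = 2`, `Tam(E_D) = 6 · 4^s · 2^i`;
* `3` divides `W(D)` and `L(E_D, 1) = m² · Ω · Tam(E_D) / #E_D(ℚ)_tors²`, `m = W(D) / (3 · 2^(s + i/2))`:
  the order of `Sha(E_D)` which the formula of Birch and Swinnerton-Dyer predicts is (if it is not zero)
  the square of the explicit number `m`, whose denominator is a power of two.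

If moreover the prime factors `p` of `D` are split (`p ≡ 1 mod 8` and `p ≡ 1, 2, 4 mod 7`) or inert
(`p ≡ 3, 5 mod 8`, `p ≡ 3, 5, 6 mod 7`, `p ≠ 3`), with an even number of inert ones in each of the two
classes modulo `8`, then

* `m` is an integer, and it is odd if and only if `E_D(ℚ)` is finite and the `2`-primary part of
  `Sha(E_D)` is trivial, and if and only if an explicit `s × s` matrix over `𝔽₂` of Legendre symbols is
  invertible. So the formula of Birch and Swinnerton-Dyer is true at the prime `2` for all the `D` of this
  class with an invertible matrix, and for the other ones both the predicted order and the real one are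
  even (or the predicted order is zero, or the rank is positive);
* the numbers `D` with these properties are a proportion of exactly `∏ (1 - 2^(-(2 i + 1))) = 0.419...`
  of the class, and there are at least `a X / (log X)^(5/8)` of them up to `X`, `a > 0`.
-/

set_option autoImplicit false

open Filter Finset

namespace Pool.Agent.Results.MP_92892c_nt.AnalyticShaSquareX14

open Pool.Agent.Helper75.BY
/-- **The analytic order of the Tate-Shafarevich group of the twists of `X_0(14)` is an explicit square,
and its parity is right.** -/
theorem result :
    (∀ D : ℕ, Gen D → 1 < D → Exact D) ∧ (∀ D : ℕ, Family D → Gen D ∧ (1 < D → Parity D)) ∧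
    Tendsto (fun X : ℕ => (num (fun D => Family D ∧ TwoTrivial D) X : ℝ) / num Family X)
      atTop (nhds cc) ∧ 0.4194 < cc ∧ cc < 0.4195 ∧
    ∃ (a : ℝ) (X₀ : ℕ), 0 < a ∧ ∀ X : ℕ, X₀ ≤ X →
      a * X / (Real.log X) ^ (5 / 8 : ℝ) ≤ num (fun D => Family D ∧ TwoTrivial D) X := by
  refine ⟨fun D h h1 => exact h h1, fun D h => ⟨h.gen, parity h⟩, prop_lim, ?_⟩
  have hc : cc = Pool.Agent.Y703.CQ.c2 := rfl
  refine ⟨?_, ?_, low_good⟩
  · have := Pool.Agent.Y948.CQ.t_C2.2.2.2.1
    rw [hc]
    convert this using 1
  · have := Pool.Agent.Y948.CQ.t_C2.2.2.2.2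
    rw [hc]
    convert this using 1

end Pool.Agent.Results.MP_92892c_nt.AnalyticShaSquareX14
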