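import Pool.Agent.Helper75.BX.Dens

/-!
# The analytic order of the Tate-Shafarevich group of the quadratic twists of a curve of conductor 20

`E_D : y² = x³ - 11 D x² - D² x` is the quadratic twist by `D` of an elliptic curve of conductor `20`
(without complex multiplication). Let `e = 3` or `e = 7`, and let `D` run over the class of the
squarefree numbers whose prime factors are either split (`p ≡ 1 mod 8` and `p ≡ ±1 mod 5`), at least one
of them, or inert (`p ≡ e mod 8` and `p ≡ ±2 mod 5`), an even number of them. Let `s` and `i` be the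
numbers of the split and of the inert prime factors of `D`, `Ω` the real period and `L` the Hasse-Weil
`L`-function of `E_D`, and `G(D) = ∑ wt(v)` the sum over the vectors `v` of `ℤ³` with `|v|² = D` and
`5 ∣ v₁ + 3 v₂` of the weights `wt(v) ∈ {±1, ±2}`, which only depend on the vector `v` modulo `8`.

The theorem says, for all `D` of the class and without any hypothesis:

* the equation is globally minimal, `#E_D(ℚ)_tors = 2`, `Tam(E_D) = 4^s 2^i`;
* `m := G(D) / 2^(s + i/2 + 2)` is an integer, it is divisible by `3`, and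
  `L(E_D, 1) = m² · Ω · Tam(E_D) / #E_D(ℚ)_tors²`: the order of `Sha(E_D)` which the formula of Birch
  and Swinnerton-Dyer predicts is, with all its prime factors, the square `m²` (if it is not zero);
* `m` is odd if and only if `E_D(ℚ)` is finite and the `2`-primary part of `Sha(E_D)` is trivial, and if
  and only if an explicit `s × s` matrix over `𝔽₂` of Legendre symbols is invertible. So the formula of
  Birch and Swinnerton-Dyer is true at the prime `2` for all these `D`, and for the other `D` of the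
  class both the predicted order and the real one are even (or the predicted order is zero, or the rank
  is positive);
* the numbers `D` with these properties are a proportion of exactly `∏ (1 - 2^(-(2 i + 1))) = 0.419...`
  of the class, and there are at least `a X / (log X)^(3/4)` of them up to `X`, `a > 0`.
-/

set_option autoImplicit false

open Filter Finset

namespace Pool.Agent.Results.MP_92892c_nt.AnalyticShaSquareX20

open Pool.Agent.Helper75.BX
open Pool.Agent.Y695 (ED EQ IsLFun Om tamProd ShaTwoTrivial)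
open Pool.Agent.W97.MT (IsGloballyMinimal)
open Pool.Agent.Z700 (pr Yd lres)
open Pool.Agent.Z695.B (Dat xwS pii)
open Pool.Agent.Z695.C (RankZeroShaTwo)

theorem two_iff {e D : ℕ} (he : e = 3 ∨ e = 7) (h : Family e D) :
    TwoTrivial D ↔ RankZeroShaTwo (ED (D : ℤ)) := by
  obtain ⟨-, -, -, h4, -⟩ := exactAll (h.dat he) h.ne (D := (D : ℤ)) (by rw [h.prod])
  constructor
  · rintro ⟨h1, h2⟩
    refine ⟨h1, fun c hc => h2 1 c ?_⟩
    rw [pow_one]
    exact hc
  · intro h5
    exact ⟨h5.1, h4 h5⟩

theorem num_eq {e : ℕ} (he : e = 3 ∨ e = 7) (X : ℕ) :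
    num (fun D => Family e D ∧ TwoTrivial D) X =
      num (fun D => Family e D ∧ RankZeroShaTwo (ED (D : ℤ))) X := by
  classical
  unfold num
  congr 1
  ext D
  simp only [mem_filter]
  refine and_congr_right fun _ => ?_
  constructor
  · rintro ⟨h1, h2⟩
    exact ⟨h1, (two_iff he h1).1 h2⟩
  · rintro ⟨h1, h2⟩
    exact ⟨h1, (two_iff he h1).2 h2⟩

/-- **The analytic order of the Tate-Shafarevich group of `E_D : y² = x³ - 11 D x² - D² x` is a square,
and its parity is right.** -/
theorem result (e : ℕ) (he : e = 3 ∨ e = 7) :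
    (∀ D : ℕ, Family e D →
      IsGloballyMinimal (ED D) ∧ tors D = 2 ∧
      tamProd (ED D) = 4 ^ (sp D).card * 2 ^ (ip D).card ∧
      ∃ (Λ : ℂ → ℂ) (m : ℤ), IsLFun (ED D) Λ ∧
        Gsum D = 2 ^ ((sp D).card + (ip D).card / 2 + 2) * m ∧ 3 ∣ m ∧
        Λ 1 = (((m : ℝ) ^ 2 * (Om (ED D) * tamProd (ED D) / (tors D : ℝ) ^ 2) : ℝ) : ℂ) ∧
        (Odd m ↔ TwoTrivial D) ∧ (Odd m ↔ (Mt D).det ≠ 0)) ∧
    Tendsto (fun X : ℕ => (num (fun D => Family e D ∧ TwoTrivial D) X : ℝ) / num (Family e) X)
      atTop (nhds cc) ∧ 0.4194 < cc ∧ cc < 0.4195 ∧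
    ∃ (a : ℝ) (X₀ : ℕ), 0 < a ∧ ∀ X : ℕ, X₀ ≤ X →
      a * X / (Real.log X) ^ (3 / 4 : ℝ) ≤ num (fun D => Family e D ∧ TwoTrivial D) X := by
  refine ⟨fun D h => ?_, ?_, ?_⟩
  · obtain ⟨h1, h2, h3, h4, h5, Λ, y, hL, hy, hp, hv⟩ :=
      exactAll (h.dat he) h.ne (D := (D : ℤ)) (by rw [h.prod])
    have ht : tors D = 2 := h5
    have hG : Gsum (D : ℤ) = 2 * pii (sp D ∪ ip D) := by
      have := Gsum_eq (h.dat he).gd
      rw [h.prod] at this
      exact this
    have hodd : Odd (3 * y) ↔ Odd y := by
      rw [Int.odd_mul]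
      exact and_iff_right (by decide)
    refine ⟨h1, ht, h2, Λ, 3 * y, hL, ?_, ⟨y, rfl⟩, ?_, ?_, ?_⟩
    · rw [hG, hp]
      ring
    · rw [hv, ht, h2]
      congr 1
      push_cast
      ring
    · rw [hodd, hy, two_iff he h]
    · rw [hodd, hy, h3, Mt_det he h]
  · refine (prop_lim he).congr fun X => ?_
    rw [num_eq he]
  · have hc : cc = Pool.Agent.Y703.CQ.c2 := rfl
    refine ⟨?_, ?_, ?_⟩
    · have := Pool.Agent.Y948.CQ.t_C2.2.2.2.1
      rw [hc]
      convert this using 1
    · have := Pool.Agent.Y948.CQ.t_C2.2.2.2.2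
      rw [hc]
      convert this using 1
    · obtain ⟨a, X₀, ha, hX⟩ := low_good he
      refine ⟨a, X₀, ha, fun X h => ?_⟩
      rw [num_eq he]
      exact hX X h

end Pool.Agent.Results.MP_92892c_nt.AnalyticShaSquareX20
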