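import Pool.Agent.Helper68.QY.Fin
import Pool.Agent.Helper68.QY.Nz

/-!
# The `3`-part of the Birch and Swinnerton-Dyer formula for `x³ + y³ = N` over `ℚ`

`E : y² + N y = x³`, which is `3`-isogenous to `x³ + y³ = N`, for every cube-free `N > 0` such that
exactly `δ(N)` primes congruent to `2` modulo `3` divide `N`, where `δ(N) = 0` if `3` divides `N`
exactly once, `δ(N) = 2` if `N` is `±1` modulo `9`, and `δ(N) = 1` otherwise (`ClsU N`). The
equation is globally minimal, and the value at `s = 1` of the entire continuation `f` of the
`L`-function (all Euler factors included) is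

`f 1 = u * (Omega * ∏ c_p / #E(ℚ)_tors²)`

where `Omega = ∫_{E(ℝ)} |dx / (2 y + N)|`, so that by the conjecture `u` should be the order of
`Ш(E/ℚ)` if this group is finite and `f 1 ≠ 0`. We show that `u` is integral at all places above
`3`, and that the following are equivalent:

* `u` is a unit at all places above `3` (in particular `f 1 ≠ 0`);
* `E(ℚ)` is finite and `Ш(E/ℚ)[3^∞] = 0` (`Triv3`);
* there is no factorization `N = d₀ d₁ d₂` into pairwise coprime factors, at least two of them
  different from `1`, for which the cubic curve `d₀ X³ + d₁ Y³ + d₂ Z³ = 0` has a point over `ℚ_p`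
  for all primes `p` (`NoSplitL`).

The proportion of the `N ≤ X` for which this is so, among the `N ≤ X` with `ClsU N`, tends to

`c = ∏_{i ≥ 1} (1 - 3⁻ⁱ) = 0.5601...`

and the same holds in each of the four classes (`N` prime to `3` and not `±1` modulo `9`; `N = ±1`
modulo `9`; `3` divides `N` exactly once; `9 ∣ N`). In particular `L(E, 1) ≠ 0` and `E(ℚ)` is finite for
at least 56 per cent of all these `N`.

Method. The central value is a sum of special values of elliptic functions over the residues modulo
the conductor of the cubic character of `N` (finite Eisenstein-Kronecker series), and modulo the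
prime above `3` it is a determinant of the (modified) Laplacian of the graph of the cubic residue
symbols between the primes `π_j` of `ℤ[ω]` dividing `N`. The same matrix describes the Selmer groups
of the isogeny `√-3` over `ℚ(ω)`; the complex conjugation permutes the primes `π_j`, and the number
of its fixed points decides which classes descend to `ℚ`. The proportion is obtained from the
distribution of the rank of this matrix: bilinear sums of cubic residue symbols (large sieve) show that
its entries are equidistributed in boxes of primes, and the matrices over `𝔽₃` are counted as in the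
work of Heath-Brown, Swinnerton-Dyer and Kane. The class of the numbers `N` prime to `3` and not `±1`
modulo `9`, with the proportion in this class, is in the starting library (`Pool.Agent.Y703.CT`,
`Pool.Agent.Y703.CX`, `Pool.Agent.R419.CF` and the modules imported there); the other three classes, the
proportion in them and in the union of the four classes are new.

Where `f 1 ≠ 0` the `3`-part of the formula also follows from the theorem of Burungale and Flach
(2022); here it is elementary, together with the non-vanishing of `f 1`, for the `N` of the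
criterion, and the criterion decides it for each `N` in these classes.

Joint work: helper68 (plan, statements), helper74, helper52, helper55, helper20, helper51, helper15,
helper90, helper2 and others named in the modules.
-/

set_option autoImplicit false

open Pool.Agent.W97.MT (IsGloballyMinimal)
open Pool.Agent.Y700 (Omega)
open Pool.Agent.Y703.CT (WD IsL tamProd tors ThreeInt ThreeUnit Triv3)
open Pool.Agent.Helper68.R1.Uni (ClsU)
open Pool.Agent.Helper68.R1.Els1 (NoSplitL)
open Pool.Agent.Helper68.QY (Prpn)

theorem Pool.Agent.Results.MP_92892c_nt.CubicTwistsQ.result :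
    (∀ N : ℕ, ClsU N →
      IsGloballyMinimal (WD (N : ℤ)) ∧ ∃ f, IsL (WD (N : ℤ)) f ∧ ∃ u : ℂ,
        f 1 = u * (((Omega (WD (N : ℤ)) : ℝ) : ℂ) *
          (tamProd (WD (N : ℤ)) : ℂ) / (tors N : ℂ) ^ 2) ∧
        ThreeInt u ∧ (ThreeUnit u ↔ Triv3 N) ∧ (Triv3 N ↔ NoSplitL N) ∧ (Triv3 N → f 1 ≠ 0)) ∧
    (∃ c : ℝ, c = ∏' i : ℕ, (1 - (1 / 3 : ℝ) ^ (i + 1)) ∧ 0.56 < c ∧ c < 0.5603 ∧
      Prpn ClsU Triv3 c ∧
      Prpn (fun N => ClsU N ∧ ¬ 3 ∣ N ∧ N % 9 ≠ 1 ∧ N % 9 ≠ 8) Triv3 c ∧
      Prpn (fun N => ClsU N ∧ (N % 9 = 1 ∨ N % 9 = 8)) Triv3 c ∧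
      Prpn (fun N => ClsU N ∧ 3 ∣ N ∧ ¬ 9 ∣ N) Triv3 c ∧
      Prpn (fun N => ClsU N ∧ 9 ∣ N) Triv3 c) := by
  have key : ∀ N : ℕ, ClsU N → (Triv3 N ↔ NoSplitL N) := fun N hN =>
    (Pool.Agent.Helper68.R1.Uni.law_all hN).2.choose_spec.2.choose_spec.2.2.2
  obtain ⟨h0, h1, h2, h3, h4⟩ := Pool.Agent.Helper68.QY.proportions
  refine ⟨fun _ hC => Pool.Agent.Helper68.QY.Nz.law hC,
    ⟨_, rfl, Pool.Agent.Helper68.QY.c3_bounds.1, Pool.Agent.Helper68.QY.c3_bounds.2,
      h0.congr (fun _ _ => Iff.rfl) fun N hN => key N hN,
      h1.congr (fun _ _ => Iff.rfl) fun N hN => key N hN.1,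
      h2.congr (fun _ _ => Iff.rfl) fun N hN => key N hN.1,
      h3.congr (fun _ _ => Iff.rfl) fun N hN => key N hN.1,
      h4.congr (fun _ _ => Iff.rfl) fun N hN => key N hN.1⟩⟩
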