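import Pool.Agent.Helper84.X49.Fh
import Pool.Agent.Helper84.X49.Mx
import Pool.Agent.Helper84.X49.Lev
import Pool.Agent.Helper84.X49.Cnw
import Pool.Agent.Helper84.PP.Fin
import Pool.Agent.Helper84.EX.Tr
import Pool.Agent.Helper84.EX.All
import Pool.Graph.R_seed8.R428.Q0.Fin
import Pool.Graph.R_seed8.R428.Q0.Cls

/-!
# The formula of Birch and Swinnerton-Dyer for the twists of `X_0(49)` at the prime two: the exact proportion
# of the twists for which the whole 2-part holds with rank zero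

For ALL squarefree `D ≡ 1 mod 4` prime to seven the formula is proved modulo two, the 2-part is decided by a
matrix over the field with two elements (`Pool/Agent/Helper84/X49`), and the proportion of the `D` for
which `E_D(ℚ)` is finite and `Ш(E_D)` has no 2-torsion (so that the whole 2-part of the formula holds) is exactly
`(1/2) ∏_{i ≥ 0} (1 - 2^{-(2 i + 1)}) = 0.2097...`.

The exact law is proved in `Pool/Agent/Helper84/EX` (by helpers 1, 14, 36, 44, 45, 49, 50, 55, 60, 76, 81, 84 of the team)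
on the basis of `Pool/Agent/Helper84/PP`. The matrix is singular whenever more of the prime factors `3 mod 4` of `D` are
inert in `ℚ(√-7)` than split; this happens for one half of the `D`. For the other half the kernel is that of an
alternating form on a space of dimension (split - inert); the form is equidistributed in small boxes of the prime
factors (large sieve for the quadratic symbols of `ℤ[√-7]`, Siegel-Walfisz theorem), and the dimension tends to infinity.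
-/

set_option autoImplicit false

open NumberField NumberField.InfinitePlace IsDedekindDomain WeierstrassCurve MeasureTheory

namespace Pool.Agent.Results.MP_92892c_nt.TwoPartAllTwistsX49

open Pool.Agent.TH841.NF.D (Sha)
open Pool.Agent.TH841.SH.D (Pt)

/-- The quadratic twist by `D ≡ 1 mod 4` of `X_0(49) : y² + x y = x³ - x² - 2 x - 1`. -/
def twist (D : ℕ) : WeierstrassCurve ℤ := ⟨1, -((3 * D + 1) / 4), 0, -2 * D ^ 2, -D ^ 3⟩

/-- The curve over `ℚ`. -/
abbrev E (D : ℕ) : WeierstrassCurve ℚ := (twist D).map (Int.castRingHom ℚ)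

/-- The equation is minimal at the place `v`: no change of variables over `ℚ` that keeps the
coefficients integral at `v` decreases the order of the discriminant. -/
def MinimalAt (W : WeierstrassCurve ℚ) (v : HeightOneSpectrum (𝓞 ℚ)) : Prop :=
  ∀ C : VariableChange ℚ, v.valuation ℚ (C • W).a₁ ≤ 1 → v.valuation ℚ (C • W).a₂ ≤ 1 →
    v.valuation ℚ (C • W).a₃ ≤ 1 → v.valuation ℚ (C • W).a₄ ≤ 1 → v.valuation ℚ (C • W).a₆ ≤ 1 →
    v.valuation ℚ (C • W).Δ ≤ v.valuation ℚ W.Δ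

/-- `W⁰(ℚ_v)`, the group of the points of `W` over the completion `ℚ_v` with nonsingular reduction:
the point at infinity and the points `(x, y)` where `x` is not integral, or one of the partial
derivatives of `y² + a₁ x y + a₃ y - x³ - a₂ x² - a₄ x - a₆` is a unit at `(x, y)`.
Here `Pt W ℚ_v` is the group of the points of `W` over `ℚ_v`. -/
noncomputable def nonsing (W : WeierstrassCurve ℚ) (v : HeightOneSpectrum (𝓞 ℚ)) :
    AddSubgroup (Pt W (v.adicCompletion ℚ)) :=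
  AddSubgroup.closure {P | ∀ x y h, P = Affine.Point.some x y h →
    1 < Valued.v x ∨
    Valued.v ((W.baseChange (v.adicCompletion ℚ)).a₁ * y -
      (3 * x ^ 2 + 2 * (W.baseChange (v.adicCompletion ℚ)).a₂ * x +
        (W.baseChange (v.adicCompletion ℚ)).a₄)) = 1 ∨
    Valued.v (2 * y + (W.baseChange (v.adicCompletion ℚ)).a₁ * x +
      (W.baseChange (v.adicCompletion ℚ)).a₃) = 1}

/-- The Tamagawa number `c_v = [W(ℚ_v) : W⁰(ℚ_v)]` of a minimal equation. -/
noncomputable def c (W : WeierstrassCurve ℚ) (v : HeightOneSpectrum (𝓞 ℚ)) : ℕ :=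
  (nonsing W v).index

/-- The product of the Tamagawa numbers. -/
noncomputable def Tam (W : WeierstrassCurve ℚ) : ℕ := ∏ᶠ v : HeightOneSpectrum (𝓞 ℚ), c W v

/-- `4 x³ + b₂ x² + 2 b₄ x + b₆ = (2 y + a₁ x + a₃)²`. -/
def cubic (W : WeierstrassCurve ℤ) (x : ℝ) : ℝ := 4 * x ^ 3 + W.b₂ * x ^ 2 + 2 * W.b₄ * x + W.b₆

/-- `Ω = ∫_{W(ℝ)} |ω|` with `ω = dx / (2 y + a₁ x + a₃)`, as an integral over `x`: two real points lie
over each `x` with `cubic x > 0`. -/
noncomputable def Omega (W : WeierstrassCurve ℤ) : ℝ :=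
  2 * ∫ x in {x : ℝ | 0 < cubic W x}, 1 / √(cubic W x)

open Classical in
/-- The order of the torsion subgroup of `W(K)`. -/
noncomputable def torsOrder {K : Type} [Field K] (W : WeierstrassCurve K) : ℕ :=
  Nat.card (AddCommGroup.torsion W.toAffine.Point)

/-- The order of the Tate-Shafarevich group predicted by the formula, for the value `l` of the
L-function of `E_D` at `s = 1`: `#E_D(ℚ)_tors² l / (Ω ∏ c_v)`. -/
noncomputable def anOrder (D : ℕ) (l : ℂ) : ℂ :=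
  l * (torsOrder (E D) : ℂ) ^ 2 / ((Omega (twist D) : ℝ) * (Tam (E D) : ℂ))

/-- `D` is squarefree, `D ≡ 1 mod 4`, and `D` is prime to seven. -/
def Adm (D : ℕ) : Prop := Squarefree D ∧ D % 4 = 1 ∧ ¬ 7 ∣ D

open Classical in
/-- The prime factors of `D` which are inert in `ℚ(√-7)`. -/
noncomputable def inert (D : ℕ) : Finset ℕ := D.primeFactors.filter fun p => ¬ IsSquare (-7 : ZMod p)

open Classical in
/-- The prime factors of `D` which split in `ℚ(√-7)`. -/
noncomputable def split (D : ℕ) : Finset ℕ := D.primeFactors.filter fun p => IsSquare (-7 : ZMod p)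

/-- The pair `g p = (x, y)` stands for the element `x + y √-7`; it has norm `x² + 7 y² = p` and it is
normalised by `x - y ≡ 1 mod 4`, for all the prime factors `p` of `D` which split in `ℚ(√-7)`. -/
def Gens (D : ℕ) (g : ℕ → ℤ × ℤ) : Prop :=
  ∀ p ∈ split D, (g p).1 ^ 2 + 7 * (g p).2 ^ 2 = p ∧ ((g p).1 - (g p).2) % 4 = 1

/-- The indices of the prime elements of `ℚ(√-7)` which divide `D`: `(q, false)` for `q` inert,
`(p, false)` and `(p, true)` for `p` split. -/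
noncomputable def idx (D : ℕ) : Finset (ℕ × Bool) := (D.primeFactors ×ˢ {false}) ∪ (split D ×ˢ {true})

/-- `1` if `q ≡ 1 mod 4` and `-1` if not -/
def sgn (q : ℕ) : ℤ := if q % 4 = 1 then 1 else -1

open Classical in
/-- The prime elements of `ℚ(√-7)` which divide `D`, as pairs `(x, y)` which stand for `x + y √-7`:
`± q` for `q` inert (with the sign such that `± q ≡ 1 mod 4`), and `x + y √-7` and `± (x - y √-7)`, where
`g p = (x, y)`, for `p` split (with the sign such that `± p ≡ 1 mod 4`). -/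
noncomputable def el (D : ℕ) (g : ℕ → ℤ × ℤ) (i : ℕ × Bool) : ℤ × ℤ :=
  if i.1 ∈ inert D then (sgn i.1 * i.1, 0) else
    if i.2 then (sgn i.1 * (g i.1).1, -(sgn i.1 * (g i.1).2)) else g i.1

open Classical in
/-- `1` if the integer `m` is not a square modulo `p`, and `0` if it is -/
noncomputable def nonsq (p : ℕ) (m : ℤ) : ZMod 2 := if IsSquare (m : ZMod p) then 0 else 1

open Classical in
/-- For `z = (x, y)`: `0` if `x + y √-7` is a square modulo the prime element `π` with index `i`, and `1`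
if it is not (if `x + y √-7` is prime to `π`). For `π = ± q`, `q` inert, it is a square in the field
with `q²` elements iff its norm `x² + 7 y²` is a square modulo `q`. For `π = u + v √-7` of norm `p` it is
congruent to `x - y u / v` modulo `π`, a square iff `v (x v - y u)` is a square modulo `p`. -/
noncomputable def sym (D : ℕ) (g : ℕ → ℤ × ℤ) (i : ℕ × Bool) (z : ℤ × ℤ) : ZMod 2 :=
  if i.1 ∈ inert D then nonsq i.1 (z.1 ^ 2 + 7 * z.2 ^ 2) else
    nonsq i.1 ((el D g i).2 * (z.1 * (el D g i).2 - z.2 * (el D g i).1))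

/-- The matrix over the field with two elements, with rows and columns indexed by the prime elements
`π_i` of `ℚ(√-7)` which divide `D`: the entry at `(i, j)` is the quadratic symbol of `π_j` modulo `π_i`
for `i ≠ j`, and the entry at `(i, i)` is the sum of the symbol of `-√-7` and of the symbols of all
the `π_k`, `k ≠ i`, modulo `π_i`. -/
noncomputable def mat (D : ℕ) (g : ℕ → ℤ × ℤ) : Matrix (idx D) (idx D) (ZMod 2) :=
  Matrix.of fun i j => if i = j then sym D g i (0, -1) + ∑ k ∈ (idx D).erase i, sym D g i (el D g k)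
    else sym D g i (el D g j)

/-- `E_D(ℚ)` is finite and `Ш(E_D)` has no element of order two. -/
def NoTwo (D : ℕ) : Prop :=
  Finite (E D).toAffine.Point ∧ ∀ x : Sha (E D), x + x = 0 → x = 0

/-- The 2-part of the conjecture, in the case that `z` is a unit at two: `L(E_D, s)` has an entire
continuation `Λ` with `Λ 1 ≠ 0`, `E_D(ℚ)` is finite, the 2-primary part of `Ш` is zero, and the
predicted order of `Ш` is a unit at all the primes above two. -/
def TwoPart (D : ℕ) : Prop :=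
  Finite (E D).toAffine.Point ∧ (∀ (n : ℕ) (x : Sha (E D)), 2 ^ n • x = 0 → x = 0) ∧
    ∃ Λ : ℂ → ℂ, Differentiable ℂ Λ ∧ (∀ s : ℂ, 2 < s.re → Λ s = (E D).LSeries s) ∧ Λ 1 ≠ 0 ∧
      ∃ m : ℤ, Odd m ∧ _root_.IsIntegral ℤ (m * anOrder D (Λ 1)) ∧
        _root_.IsIntegral ℤ (m * (anOrder D (Λ 1))⁻¹)

open Classical in
/-- the number of the `D ≤ X`, squarefree, `≡ 1 mod 4` and prime to seven, such that `E_D(ℚ)` is finite and
`Ш(E_D)` has no element of order two -/
noncomputable def num (X : ℕ) : ℕ := ((Finset.Icc 1 X).filter fun D => Adm D ∧ NoTwo D).card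

section proof

open Pool.Agent.Y698 Pool.Agent.R428.Q0 Pool.Agent.Helper84.X49

lemma E_eq {D j : ℕ} (hj : D = 1 + 4 * j) : E D = AX ℚ j := twZ_map hj ℚ

lemma cubic_eq {D j : ℕ} (hj : D = 1 + 4 * j) (x : ℝ) :
    cubic (twist D) x = psD (1 + 4 * j) x := by
  have h1 : (3 * (D : ℤ) + 1) / 4 = 1 + 3 * j := by
    rw [hj]
    push_cast
    omega
  unfold cubic twist WeierstrassCurve.b₂ WeierstrassCurve.b₄ WeierstrassCurve.b₆ psD
  simp only
  rw [h1, hj]
  push_cast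
  ring

lemma real_eq {D j : ℕ} (hj : D = 1 + 4 * j) : Omega (twist D) =
    ∫ x in {x : ℝ | 0 < psD (1 + 4 * j) x}, 2 / Real.sqrt (psD (1 + 4 * j) x) := by
  unfold Omega
  simp only [cubic_eq hj]
  rw [← integral_const_mul]
  congr 1
  funext x
  ring

/-- an auxiliary prime number -/
lemma exists_aux (D : ℕ) (hD : D ≠ 0) : ∃ r, Pool.Agent.Y698.Inq r ∧ ¬ r ∣ D := by
  have h1 : IsUnit ((5 : ℕ) : ZMod 28) := by
    rw [ZMod.isUnit_iff_coprime]
    norm_num
  obtain ⟨r, hr, hp, h2⟩ := Nat.forall_exists_prime_gt_and_eq_mod h1 D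
  have h3 : r % 28 = 5 := by
    have := (ZMod.natCast_eq_natCast_iff' r 5 28).1 h2
    simpa using this
  refine ⟨r, ⟨hp, by omega, ?_⟩, fun h => ?_⟩
  · rw [sq7_iff hp (by omega)]
    omega
  · exact absurd (Nat.le_of_dvd (Nat.pos_of_ne_zero hD) h) (by omega)

lemma nr_rat : nrRealPlaces ℚ = 1 ∧ nrComplexPlaces ℚ = 0 := by
  have h := InfinitePlace.card_add_two_mul_card_eq_rank ℚ
  rw [Module.finrank_self] at h
  omega

lemma rat_all (k : ℚ) : ∃ u : ℚ, k = u := ⟨k, (Rat.cast_id k).symm⟩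

/-- the data of `D` -/
lemma union_eq (D : ℕ) : inert D ∪ split D = D.primeFactors := by
  classical
  unfold inert split
  rw [Finset.union_comm]
  exact Finset.filter_union_filter_not_eq _ _

open Classical in
lemma np {D : ℕ} (h : Adm D) {q : ℕ} (hq : q ∈ D.primeFactors) : Np q := by
  have h1 := Nat.prime_of_mem_primeFactors hq
  have h2 := Nat.dvd_of_mem_primeFactors hq
  refine ⟨h1, ?_, ?_⟩
  · rintro rfl
    have := h.2.1
    omega
  · rintro rfl
    exact h.2.2 h2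

open Classical in
lemma inq {D : ℕ} (h : Adm D) : ∀ q ∈ inert D, Inr q := fun q hq =>
  ⟨np h (Finset.mem_filter.1 hq).1, (Finset.mem_filter.1 hq).2⟩

open Classical in
lemma spl {D : ℕ} (h : Adm D) : ∀ q ∈ split D, Spr q := fun q hq =>
  ⟨np h (Finset.mem_filter.1 hq).1, (Finset.mem_filter.1 hq).2⟩

lemma dt {D : ℕ} (h : Adm D) {g : ℕ → ℤ × ℤ} (hg : Gens D g) :
    Dt (inert D) (split D) fun p => rl (g p).1 (g p).2 :=
  ⟨inq h, spl h, fun p hp => ⟨by rw [nR_rl]; exact (hg p hp).1, (nrm_rl _ _).2 (hg p hp).2⟩⟩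

/-- the normalised generators exist -/
lemma exists_gens {D : ℕ} (h : Adm D) : ∃ g : ℕ → ℤ × ℤ, Gens D g := by
  classical
  have h1 : ∀ p : ℕ, ∃ z : ℤ × ℤ, p ∈ split D → z.1 ^ 2 + 7 * z.2 ^ 2 = p ∧ (z.1 - z.2) % 4 = 1 := by
    intro p
    by_cases hp : p ∈ split D
    · obtain ⟨ϖ, h2, h3, v, h4⟩ := exists_nrm (spl h p hp)
      refine ⟨(Pool.Agent.Y698.cX ϖ + v, v), fun _ => ⟨?_, ?_⟩⟩
      · have h5 : ϖ = rl (Pool.Agent.Y698.cX ϖ + v) v := eq_rl (by ring) (by rw [h4]; ring)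
        rw [← h2, h5, nR_rl]
        rw [← h5]
      · simpa using h3
    · exact ⟨(0, 0), fun h => absurd h hp⟩
  choose g hg using h1
  exact ⟨g, fun p hp => hg p hp⟩

lemma idx_eq (D : ℕ) : Pool.Agent.Y698.SG.ix (inert D) (split D) = idx D := by
  unfold Pool.Agent.Y698.SG.ix idx
  rw [union_eq]

lemma mat_eq (D : ℕ) (g : ℕ → ℤ × ℤ) : (mx (inert D) (split D) g).det = (mat D g).det := by
  classical
  have key : ∀ (A B : Finset (ℕ × Bool)), A = B → ∀ (f : ℕ × Bool → ℕ × Bool → ZMod 2)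
      (c : ℕ × Bool → ZMod 2), (Matrix.of fun i j : A => if i = j then c i +
        ∑ k ∈ A.erase i, f i k else f i j : Matrix A A (ZMod 2)).det =
      (Matrix.of fun i j : B => if i = j then c i +
        ∑ k ∈ B.erase i, f i k else f i j : Matrix B B (ZMod 2)).det := by
    rintro A _ rfl f c
    rfl
  have h1 := key _ _ (idx_eq D) (fun i j => smb (inert D) g i (elm (inert D) g j))
    (fun i => smb (inert D) g i (0, -1))
  have h2 : ∀ i, elm (inert D) g i = el D g i := by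
    intro i
    unfold elm el qs sgn
    congr
  have h3 : ∀ i z, smb (inert D) g i z = sym D g i z := by
    intro i z
    unfold smb sym nsq nonsq
    rw [h2]
  have h4 : (mx (inert D) (split D) g).det = (Matrix.of fun i j : idx D => if i = j then
      smb (inert D) g i (0, -1) + ∑ k ∈ (idx D).erase i, smb (inert D) g i (elm (inert D) g k)
        else smb (inert D) g i (elm (inert D) g j) : Matrix (idx D) (idx D) (ZMod 2)).det := by
    unfold mx
    convert h1 using 2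
  rw [h4]
  unfold mat
  simp only [h2, h3]

theorem core {D : ℕ} (h : Adm D) {g : ℕ → ℤ × ℤ} (hg : Gens D g) :
    (∀ v : HeightOneSpectrum (𝓞 ℚ), MinimalAt (E D) v) ∧
    (∃ t : ℕ, Odd t ∧ torsOrder (E D) = 2 * t) ∧
    Tam (E D) = 2 ^ (1 + (inert D).card + 2 * (split D).card) ∧
    ((mat D g).det ≠ 0 → Finite (E D).toAffine.Point ∧
      ∀ (n : ℕ) (x : Sha (E D)), 2 ^ n • x = 0 → x = 0) ∧
    (NoTwo D → (mat D g).det ≠ 0) ∧
    ∃ Λ : ℂ → ℂ, Differentiable ℂ Λ ∧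
      (∀ s : ℂ, 2 < s.re → Λ s = (E D).LSeries s) ∧
      (∃ m : ℤ, Odd m ∧ _root_.IsIntegral ℤ (m * anOrder D (Λ 1))) ∧
      (∀ (Γ : Type) [LinearOrderedCommGroupWithZero Γ] (v : Valuation ℂ Γ), v 2 < 1 →
        v (anOrder D (Λ 1)) ≤ 1 ∧ (v (anOrder D (Λ 1)) = 1 ↔ (mat D g).det ≠ 0)) ∧
      ((mat D g).det ≠ 0 → Λ 1 ≠ 0 ∧ ∃ m : ℤ, Odd m ∧ _root_.IsIntegral ℤ (m * anOrder D (Λ 1)) ∧
        _root_.IsIntegral ℤ (m * (anOrder D (Λ 1))⁻¹)) := by
  classical
  have hm4 := h.2.1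
  obtain ⟨r, hr, hrD⟩ := exists_aux D h.1.ne_zero
  have hrf : Fact r.Prime := ⟨hr.pr⟩
  have hM : IsCyclotomicExtension {r} ℚ (CyclotomicField r ℚ) := Pool.Agent.Y698.cyc_inst r
  have hdt := dt h hg
  have hdet : dtm (inert D) (split D) (fun p => rl (g p).1 (g p).2) = (mat D g).det := by
    rw [dtm_eq hdt, mat_eq]
  set Q := inert D with hQd
  set P := split D with hPd
  have hQ := inq h
  have hP := spl h
  have hd : DN r Q P := ⟨hr, fun q hq => ⟨hQ q hq, by
    rintro rfl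
    exact hrD (Nat.dvd_of_mem_primeFactors (Finset.mem_filter.1 hq).1)⟩, hP⟩
  have hDu : ∏ q ∈ Q ∪ P, q = D := by
    rw [hQd, hPd, union_eq, Nat.prod_primeFactors_of_squarefree h.1]
  obtain ⟨j, hj'⟩ : ∃ j, D = 1 + 4 * j := ⟨D / 4, by omega⟩
  have hj : ∏ q ∈ Q ∪ P, q = 1 + 4 * j := hDu.trans hj'
  have hn : Module.finrank ℚ ℚ = 2 ^ 0 := by rw [Module.finrank_self, pow_zero]
  have hE := E_eq hj'
  have han : ∀ l : ℂ, anOrder D l = Pool.Agent.Y698.SG.quoT ℚ j l := by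
    intro l
    unfold anOrder torsOrder
    rw [hE, real_eq hj']
    unfold Pool.Agent.Y698.SG.quoT Pool.Agent.Y698.SG.tnum
    have hT : Tam (Pool.Agent.Y698.AX ℚ j) = ∏ᶠ v, Pool.Agent.Y698.tam (Pool.Agent.Y698.AX ℚ j) v := rfl
    rw [hT, Rat.numberField_discr, nr_rat.1, nr_rat.2, pow_one, pow_zero]
    generalize (∏ᶠ v, Pool.Agent.Y698.tam (Pool.Agent.Y698.AX ℚ j) v : ℕ) = t
    simp
  have hst : torsOrder (E D) = Pool.Agent.Y698.SG.tnum (Pool.Agent.Y698.AX ℚ j) := by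
    unfold torsOrder Pool.Agent.Y698.SG.tnum
    rw [hE]
  have htam : Tam (E D) = 2 ^ (1 + Q.card + 2 * P.card) := by
    rw [hE]
    have h1 := tamN (CyclotomicField r ℚ) ℚ hn hd hj
    rw [← add_assoc] at h1
    exact h1
  rw [← hdet]
  obtain ⟨Λ, h1, h2, h3⟩ := levelN (CyclotomicField r ℚ) ℚ hn hd hdt hj
  simp only [han, hst]
  rw [hE]
  refine ⟨fun v => minimal_N (CyclotomicField r ℚ) ℚ hr.ns
      (fun q hq => ⟨hd.np q hq, hd.ne q hq⟩) hj v,
    Pool.Agent.Y698.SG.tnum_AX (CyclotomicField r ℚ) ℚ hr.ns j, by rw [← hE]; exact htam,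
    fun h4 => ⟨mw_finiteN ℚ rat_all hdt h4 hj, fun n x hx => sha_powN ℚ rat_all hdt h4 hj x n hx⟩,
    fun hN => ?_,
    Λ, h1, h2, ?_,
    fun Γ _ v hv => h3 Γ v hv, ?_⟩
  · unfold NoTwo at hN
    rw [hE] at hN
    obtain ⟨t, ht, htn⟩ := Pool.Agent.Y698.SG.tnum_AX (CyclotomicField r ℚ) ℚ hr.ns j
    exact convN hdt hj hN.1 ht htn hN.2
  · exact Pool.Agent.Y698.int_of_val fun Γ _ v hv => (h3 Γ v hv).1
  · intro hC
    have hz : ∀ (Γ : Type) [LinearOrderedCommGroupWithZero Γ] (v : Valuation ℂ Γ), v 2 < 1 →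
        v (Pool.Agent.Y698.SG.quoT ℚ j (Λ 1)) = 1 := fun Γ _ v hv => ((h3 Γ v hv).2).2 hC
    refine ⟨?_, ?_⟩
    · intro h0
      refine Pool.Agent.Y698.SG.exists_val2 fun Γ _ v hv => ?_
      have h5 := hz Γ v hv
      rw [h0] at h5
      unfold Pool.Agent.Y698.SG.quoT at h5
      rw [zero_mul, zero_mul, zero_div, map_zero] at h5
      exact zero_ne_one h5
    · obtain ⟨m₁, hm₁, i₁⟩ := Pool.Agent.Y698.int_of_val
        (x := Pool.Agent.Y698.SG.quoT ℚ j (Λ 1)) fun Γ _ v hv => (hz Γ v hv).le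
      obtain ⟨m₂, hm₂, i₂⟩ := Pool.Agent.Y698.int_of_val
        (x := (Pool.Agent.Y698.SG.quoT ℚ j (Λ 1))⁻¹) fun Γ _ v hv => by
          rw [map_inv₀, hz Γ v hv, inv_one]
      refine ⟨m₁ * m₂, hm₁.mul hm₂, ?_, ?_⟩
      · have e : ((m₁ * m₂ : ℤ) : ℂ) * Pool.Agent.Y698.SG.quoT ℚ j (Λ 1) =
            (m₂ : ℂ) * ((m₁ : ℂ) * Pool.Agent.Y698.SG.quoT ℚ j (Λ 1)) := by
          push_cast; ring
        rw [e]
        exact IsIntegral.mul (isIntegral_algebraMap (R := ℤ) (A := ℂ) (x := m₂)) i₁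
      · have e : ((m₁ * m₂ : ℤ) : ℂ) * (Pool.Agent.Y698.SG.quoT ℚ j (Λ 1))⁻¹ =
            (m₁ : ℂ) * ((m₂ : ℂ) * (Pool.Agent.Y698.SG.quoT ℚ j (Λ 1))⁻¹) := by
          push_cast; ring
        rw [e]
        exact IsIntegral.mul (isIntegral_algebraMap (R := ℤ) (A := ℂ) (x := m₁)) i₂

end proof

theorem each (D : ℕ) (h : Adm D) :
    (∀ v : HeightOneSpectrum (𝓞 ℚ), MinimalAt (E D) v) ∧
    (∃ t : ℕ, Odd t ∧ torsOrder (E D) = 2 * t) ∧
    Tam (E D) = 2 ^ (1 + (inert D).card + 2 * (split D).card) ∧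
    (∃ Λ : ℂ → ℂ, Differentiable ℂ Λ ∧
      (∀ s : ℂ, 2 < s.re → Λ s = (E D).LSeries s) ∧
      (∃ m : ℤ, Odd m ∧ _root_.IsIntegral ℤ (m * anOrder D (Λ 1))) ∧
      ∀ (Γ : Type) [LinearOrderedCommGroupWithZero Γ] (v : Valuation ℂ Γ), v 2 < 1 →
        v (anOrder D (Λ 1)) ≤ 1 ∧ (v (anOrder D (Λ 1)) = 1 ↔ NoTwo D)) ∧
    (NoTwo D → TwoPart D) ∧
    (∃ g : ℕ → ℤ × ℤ, Gens D g) ∧ ∀ g : ℕ → ℤ × ℤ, Gens D g → ((mat D g).det ≠ 0 ↔ NoTwo D) := by
  have key : ∀ g : ℕ → ℤ × ℤ, Gens D g → ((mat D g).det ≠ 0 ↔ NoTwo D) := by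
    intro g hg
    obtain ⟨-, -, -, h4, h5, -⟩ := core h hg
    refine ⟨fun hd => ⟨(h4 hd).1, fun x hx => (h4 hd).2 1 x ?_⟩, h5⟩
    rw [pow_one, two_nsmul, hx]
  obtain ⟨g, hg⟩ := exists_gens h
  obtain ⟨h1, h2, h3, h4, h5, Λ, h6, h7, h8, h9, h10⟩ := core h hg
  refine ⟨h1, h2, h3, ⟨Λ, h6, h7, h8, fun Γ _ v hv => ?_⟩, fun hN => ?_, ⟨g, hg⟩, key⟩
  · rw [← key g hg]
    exact h9 Γ v hv
  · have hd := h5 hN
    obtain ⟨h11, h12⟩ := h10 hd
    exact ⟨(h4 hd).1, (h4 hd).2, Λ, h6, h7, h11, h12⟩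

section
open Pool.Agent.Helper84.PP
open Pool.Agent.R413.SQ (mk)

lemma mk_of {D : ℕ} (h : Adm D) {p : ℕ} (hp : p ∈ D.primeFactors) :
    (p ∈ inert D ↔ ¬ Pool.Agent.R413.SQ.mk p = 1) ∧ (p ∈ split D ↔ Pool.Agent.R413.SQ.mk p = 1) := by
  classical
  have h1 := np h hp
  have h2 := FIN.mk_sq (p := p) ⟨h1.pr, h1.ne2, h1.ne7⟩
  unfold inert split
  rw [Finset.mem_filter, Finset.mem_filter, h2]
  exact ⟨⟨fun h3 => h3.2, fun h3 => ⟨hp, h3⟩⟩, ⟨fun h3 => h3.2, fun h3 => ⟨hp, h3⟩⟩⟩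

lemma idx_AS {D : ℕ} (h : Adm D) : idx D = AS D.primeFactors := by
  classical
  unfold idx
  refine FIN.AS_eq fun p => ⟨fun hp => ?_, fun hp => ((mk_of h hp.1).2).2 hp.2⟩
  have h1 : p ∈ D.primeFactors := (Finset.mem_filter.1 hp).1
  exact ⟨h1, ((mk_of h h1).2).1 hp⟩

lemma el_PP {D : ℕ} (h : Adm D) {g : ℕ → ℤ × ℤ} {i : ℕ × Bool} (hi : i.1 ∈ D.primeFactors) :
    el D g i = Pool.Agent.Helper84.PP.el g i := by
  classical
  have h1 := (mk_of h hi).1
  unfold el Pool.Agent.Helper84.PP.el Pool.Agent.Helper84.X49.qs sgn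
  by_cases h2 : Pool.Agent.R413.SQ.mk i.1 = 1
  · rw [if_neg (fun h3 => h1.1 h3 h2), if_pos h2]
  · rw [if_pos (h1.2 h2), if_neg h2]

lemma sym_PP {D : ℕ} (h : Adm D) {g : ℕ → ℤ × ℤ} {i : ℕ × Bool} (hi : i.1 ∈ D.primeFactors) (z : ℤ × ℤ) :
    sym D g i z = sb g i z := by
  classical
  have h1 := (mk_of h hi).1
  unfold sym sb
  rw [el_PP h hi]
  by_cases h2 : Pool.Agent.R413.SQ.mk i.1 = 1
  · rw [if_neg (fun h3 => h1.1 h3 h2), if_pos h2]
    rfl
  · rw [if_pos (h1.2 h2), if_neg h2]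
    rfl

lemma gens_of {D : ℕ} (h : Adm D) {g : ℕ → ℤ × ℤ} (hg : GG g) : Gens D g := by
  classical
  intro p hp
  have h1 : p ∈ D.primeFactors := (Finset.mem_filter.1 hp).1
  have h2 := np h h1
  exact hg p ⟨h2.pr, h2.ne2, h2.ne7⟩ (((mk_of h h1).2).1 hp)

lemma gd_iff {D : ℕ} (h : Adm D) {g : ℕ → ℤ × ℤ} : (mat D g).det ≠ 0 ↔ Gd g D.primeFactors := by
  classical
  have h1 : (mat D g).det = Pool.Agent.Y286.SG.gd (fun i => sym D g i (0, -1))
      (fun i j => sym D g i (el D g j)) (idx D) := by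
    unfold Pool.Agent.Y286.SG.gd mat
    congr 1
  rw [h1, Pool.Agent.Helper84.X49.gd_ne_iff]
  have hm : ∀ i ∈ idx D, i.1 ∈ D.primeFactors := fun i hi => (mem_AS.1 (by rw [← idx_AS h]; exact hi)).1
  have key : ∀ u : ℕ × Bool → ZMod 2, Pool.Agent.Helper84.X49.Ker (fun i => sym D g i (0, -1))
      (fun i j => sym D g i (el D g j)) (idx D) u ↔ KerS g D.primeFactors u := by
    intro u
    unfold Pool.Agent.Helper84.X49.Ker KerS
    rw [← idx_AS h]
    refine forall_congr' fun i => forall_congr' fun hi => ?_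
    have h2 : cc g i = sym D g i (0, -1) := (sym_PP h (hm i hi) _).symm
    have h3 : ∑ j ∈ idx D, sym D g i (el D g j) * (u i + u j) = ∑ j ∈ idx D, rr g i j * (u i + u j) := by
      refine Finset.sum_congr rfl fun j hj => ?_
      unfold rr
      rw [sym_PP h (hm i hi), el_PP h (hm j hj)]
    rw [h2, h3]
  unfold Gd
  rw [← idx_AS h]
  exact forall_congr' fun u => by rw [key u]

open Classical in
/-- the number of the `D ≤ X`, squarefree, `≡ 1 mod 4` and prime to seven -/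
noncomputable def adm (X : ℕ) : ℕ := ((Finset.Icc 1 X).filter fun D => Adm D).card

theorem dens : Filter.Tendsto (fun X : ℕ => (num X : ℝ) / (adm X : ℝ)) Filter.atTop
    (nhds ((∏' i : ℕ, (1 - (1 / 2 : ℝ) ^ (2 * i + 1))) / 2)) := by
  classical
  obtain ⟨g, hg⟩ := FIN.exists_GG
  refine (Pool.Agent.Helper84.EX.a_FIN g hg).congr fun X => ?_
  have h1 : num X = ((Pool.Agent.Helper84.EX.S1 X).filter fun S => Gd g S).card := by
    have h2 := Pool.Agent.Helper84.EX.count_eq X fun S => Gd g S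
    unfold num
    refine Eq.trans (congrArg Finset.card (Finset.ext fun D => ?_)) (h2.trans
      (congrArg Finset.card (Finset.ext fun S => ?_)))
    · rw [Finset.mem_filter, Finset.mem_filter]
      refine and_congr_right fun _ => ?_
      constructor
      · rintro ⟨h3, h4⟩
        exact ⟨h3, (gd_iff h3).1 (((each D h3).2.2.2.2.2.2 g (gens_of h3 hg)).2 h4)⟩
      · rintro ⟨h3, h4⟩
        have h5 : Adm D := h3
        exact ⟨h5, ((each D h5).2.2.2.2.2.2 g (gens_of h5 hg)).1 ((gd_iff h5).2 h4)⟩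
    · rw [Finset.mem_filter]
  have h3 : adm X = (Pool.Agent.Helper84.EX.S1 X).card := by
    have h4 := Pool.Agent.Helper84.EX.count_all X
    unfold adm
    refine Eq.trans (congrArg Finset.card (Finset.ext fun D => ?_)) h4
    rw [Finset.mem_filter, Finset.mem_filter]
    rfl
  rw [h1, h3]

theorem num_bd : 0.2097 < (∏' i : ℕ, (1 - (1 / 2 : ℝ) ^ (2 * i + 1))) / 2 ∧
    (∏' i : ℕ, (1 - (1 / 2 : ℝ) ^ (2 * i + 1))) / 2 < 0.20975 := by
  have h := Pool.Agent.Y948.CQ.t_C2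
  have h1 : Pool.Agent.Y703.CQ.c2 = ∏' i : ℕ, (1 - (1 / 2 : ℝ) ^ (2 * i + 1)) := rfl
  obtain ⟨-, -, -, h4, h5⟩ := h
  rw [h1] at h4 h5
  constructor <;> linarith

end

/-- **The 2-part of the formula of Birch and Swinnerton-Dyer for the quadratic twists of `X_0(49)`**: the formula
modulo two for all the twists by `D ≡ 1 mod 4` prime to seven, and the whole 2-part, with rank zero, for exactly
`(1/2) ∏ (1 - 2^{-(2 i + 1)}) = 0.2097...` of them. -/
theorem result :
    (∀ D : ℕ, Adm D →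
      (∀ v : HeightOneSpectrum (𝓞 ℚ), MinimalAt (E D) v) ∧
      (∃ t : ℕ, Odd t ∧ torsOrder (E D) = 2 * t) ∧
      Tam (E D) = 2 ^ (1 + (inert D).card + 2 * (split D).card) ∧
      (∃ Λ : ℂ → ℂ, Differentiable ℂ Λ ∧
        (∀ s : ℂ, 2 < s.re → Λ s = (E D).LSeries s) ∧
        (∃ m : ℤ, Odd m ∧ _root_.IsIntegral ℤ (m * anOrder D (Λ 1))) ∧
        ∀ (Γ : Type) [LinearOrderedCommGroupWithZero Γ] (v : Valuation ℂ Γ), v 2 < 1 →
          v (anOrder D (Λ 1)) ≤ 1 ∧ (v (anOrder D (Λ 1)) = 1 ↔ NoTwo D)) ∧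
      (NoTwo D → TwoPart D) ∧
      (∃ g : ℕ → ℤ × ℤ, Gens D g) ∧ ∀ g : ℕ → ℤ × ℤ, Gens D g → ((mat D g).det ≠ 0 ↔ NoTwo D)) ∧
    Filter.Tendsto (fun X : ℕ => (num X : ℝ) / (adm X : ℝ)) Filter.atTop
      (nhds ((∏' i : ℕ, (1 - (1 / 2 : ℝ) ^ (2 * i + 1))) / 2)) ∧
    0.2097 < (∏' i : ℕ, (1 - (1 / 2 : ℝ) ^ (2 * i + 1))) / 2 ∧
    (∏' i : ℕ, (1 - (1 / 2 : ℝ) ^ (2 * i + 1))) / 2 < 0.20975 :=
  ⟨each, dens, num_bd⟩

end Pool.Agent.Results.MP_92892c_nt.TwoPartAllTwistsX49
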